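import Mathlib
import Pool.Agent.H.MP_6bb0fd_an.Op

set_option autoImplicit false

namespace Pool.Agent.Results.MP_fcf092_an.No

open Polynomial Finset Pool.Agent.H.MP_6bb0fd_an

/-- Hermite polynomials, physicists' normalisation -/
noncomputable def H : ℕ → ℝ[X]
  | 0 => 1
  | n + 1 => C 2 * X * H n - derivative (H n)

theorem dH (n : ℕ) : derivative (H (n + 1)) = C (2 * (n + 1) : ℝ) * H n := by
  induction n with
  | zero => simp [H]
  | succ n ih =>
    rw [H, derivative_sub, derivative_mul, ih, derivative_C_mul, derivative_C_mul, H]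
    simp only [ derivative_X, map_mul, map_add, map_natCast, map_one,
      Nat.cast_add, Nat.cast_one, map_ofNat]
    ring

theorem par (n : ℕ) : (H n).comp (-X) = C ((-1) ^ n) * H n := by
  induction n with
  | zero => simp [H]
  | succ n ih =>
    have := congrArg derivative ih
    rw [derivative_comp, derivative_C_mul] at this
    simp only [H, sub_comp, mul_comp, C_comp, X_comp, ih, pow_succ, map_mul, map_neg, map_one,
      derivative_neg, derivative_X] at *
    linear_combination this

/-- number operator -/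
noncomputable def N (f : ℝ[X]) : ℝ[X] := X * derivative f - C (1 / 2) * derivative (derivative f)

theorem NH (n : ℕ) : N (H n) = C (n : ℝ) * H n := by
  rcases n with _ | n
  · simp [N, H]
  · have : (C (1 / 2 : ℝ) : ℝ[X]) * 2 = 1 := by rw [← map_ofNat C, ← C_mul]; norm_num
    rw [N, dH, derivative_C_mul, H]
    simp only [map_mul, map_add, map_natCast, map_one, Nat.cast_add, Nat.cast_one, map_ofNat]
    linear_combination (-((n : ℝ[X]) + 1) * derivative (H n)) * this

/-- shifted Taylor coefficients -/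
noncomputable def sh (c : ℝ) (j k : ℕ) : ℝ[X] :=
  if j ≤ k then C (1 / (k - j).factorial : ℝ) * (C c * X) ^ (k - j) else 0

theorem tay2 (c : ℝ) (j : ℕ) (f : ℝ[X]) (hj : j ≤ 4) :
    ∑ k ∈ range (f.natDegree + 5), sh c j k * derivative^[k] f =
      (derivative^[j] f).comp (C (1 + c) * X) := by
  rw [show f.natDegree + 5 = j + (f.natDegree + 5 - j) by omega, sum_range_add,
    sum_eq_zero fun k hk => by simp [sh, (mem_range.1 hk).not_ge], zero_add]
  refine Polynomial.funext fun x => ?_
  have := eval_eq_sum_range' (p := taylor x (derivative^[j] f)) (n := f.natDegree + 5 - j) (by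
    rw [natDegree_taylor]; have := natDegree_iterate_derivative f j; omega) (c * x)
  rw [taylor_eval] at this
  rw [eval_comp, eval_mul, eval_C, eval_X, show (1 + c) * x = c * x + x by ring, this,
    eval_finsetSum]
  refine sum_congr rfl fun k _ => ?_
  have := congrFun (factorial_smul_hasseDeriv (R := ℝ) k) (derivative^[j] f)
  rw [taylor_coeff, add_comm j, Function.iterate_add_apply, ← this]
  simp [sh]
  field_simp

/-- coefficients of the finite order part, at `-x` -/
noncomputable def q : ℕ → ℝ[X]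
  | 0 => -1
  | 2 => X ^ 2 - C (1 / 2)
  | 3 => X
  | 4 => C (1 / 4)
  | _ => 0

theorem fs (A : ℕ → ℝ[X]) (f : ℝ[X]) :
    ∑ᶠ k, A k * derivative^[k] f = ∑ k ∈ range (f.natDegree + 5), A k * derivative^[k] f :=
  finsum_eq_sum_of_support_subset _ fun k hk => by
    by_contra c
    simp only [coe_range, Set.mem_Iio, not_lt] at c
    exact hk (by simp [iterate_derivative_eq_zero (show f.natDegree < k by omega)])

theorem result : ∃ (T W : ℝ[X] →ₗ[ℝ] ℝ[X]) (γ : ℕ → ℝ) (Q : ℕ → ℝ[X]),
    (∀ n, T (H n) = γ n • H n) ∧ (∀ f, T f = ∑ᶠ k, Q k * derivative^[k] f) ∧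
    (∀ f, W f = ∑ᶠ k, (1 / 2 ^ k : ℝ) • Q k * derivative^[k] f) ∧
    (∀ n, (W (X ^ n)).Splits) ∧ ∃ f : ℝ[X], f.Splits ∧ ¬ (W f).Splits := by
  let S : ℝ → ℝ → ℝ[X] →ₗ[ℝ] ℝ[X] := fun a c => ∑ j ∈ range 5, (a ^ j) • (LinearMap.mulLeft ℝ (q j) ∘ₗ
    (aeval (C c * X)).toLinearMap ∘ₗ derivative ^ j)
  have hS : ∀ a c f, S a c f = ∑ j ∈ range 5, C (a ^ j) * q j * (derivative^[j] f).comp (C c * X) :=
    fun a c f => by
      simp [S, LinearMap.sum_apply, Module.End.pow_apply, comp_eq_aeval, smul_eq_C_mul, mul_assoc]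
  have hW : ∀ f, S (1 / 2) 0 f = C (f.coeff 2 / 2) * X ^ 2 + C (3 / 4 * f.coeff 3) * X +
      C (3 / 8 * f.coeff 4 - f.coeff 2 / 4 - f.coeff 0) := fun f => by
    rw [hS]
    refine Polynomial.funext fun x => ?_
    simp [sum_range_succ, q, ← coeff_zero_eq_eval_zero, coeff_derivative, eval_comp]
    ring
  refine ⟨S 1 (-1), S (1 / 2) 0, fun n => (-1) ^ n * (n * n - n - 1),
    fun k => ∑ j ∈ range 5, q j * sh (-2) j k, fun n => ?_, fun f => ?_, fun f => ?_, fun n => ?_,
    1 - X ^ 2, ?_, fun h => ?_⟩
  · have e : ∀ f, S 1 (-1) f = (N (N f) - N f - f).comp (-X) := fun f => by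
      rw [hS]
      refine Polynomial.funext fun x => ?_
      simp [sum_range_succ, q, N, eval_comp]
      ring
    have : N (C (n : ℝ) * H n) = C (n : ℝ) * N (H n) := by
      simp only [N, derivative_C_mul]; ring
    rw [e, NH, this, NH, smul_eq_C_mul]
    simp only [sub_comp, mul_comp, C_comp, par, map_mul, map_sub, map_one]
    ring
  · rw [fs]
    simp only [hS, sum_mul, one_pow, map_one, one_mul, mul_assoc]
    rw [sum_comm]
    refine sum_congr rfl fun j hj => ?_
    rw [← mul_sum, tay2 _ _ _ (by have := mem_range.1 hj; omega)]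
    norm_num
  · rw [fs]
    simp only [hS, smul_sum, sum_mul]
    rw [sum_comm]
    refine sum_congr rfl fun j hj => ?_
    have := tay2 (-1) j f (by have := mem_range.1 hj; omega)
    rw [add_neg_cancel] at this
    rw [← this, mul_sum]
    refine sum_congr rfl fun k _ => ?_
    unfold sh
    split_ifs with h
    · obtain ⟨i, rfl⟩ := Nat.exists_eq_add_of_le h
      refine Polynomial.funext fun x => ?_
      simp [neg_pow x, pow_add]
      rw [neg_pow (2 * x), mul_pow]
      field_simp
    · simp
  · rw [hW]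
    refine quad ?_
    rcases n with _ | _ | _ | _ | _ | n <;> simp [coeff_X_pow, coeff_one, coeff_X]
    norm_num
  · rw [show (1 - X ^ 2 : ℝ[X]) = -((X - C 1) * (X + C 1)) by simp; ring]
    exact ((Splits.X_sub_C _).mul (Splits.X_add_C _)).neg
  · have := lag h 0
    rw [hW] at this
    simp [coeff_one, coeff_X_pow] at this
    norm_num at this

end Pool.Agent.Results.MP_fcf092_an.No
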